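import Pool.Agent.H.MP_295d35_al.C

set_option autoImplicit false

namespace Pool.Agent.Results.MP_36a309_al.No

/-- the monoid generated by the `g i`, as a set of integers -/
def sg {e : ℕ} (g : Fin e → ℕ) : Set ℤ := (↑) '' (AddSubmonoid.closure (Set.range g) : Set ℕ)

/-- pseudo-Frobenius numbers -/
def PF (S : Set ℤ) : Set ℤ := {x | x ∉ S ∧ ∀ s ∈ S \ {0}, x + s ∈ S}

/-- almost symmetric -/
def AlmostSym (S : Set ℤ) : Prop :=
  ∃ F : ℤ, IsGreatest Sᶜ F ∧ ∀ x ∉ S, F - x ∈ S ∨ (x ∈ PF S ∧ F - x ∈ PF S)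

/-- nearly Gorenstein -/
def NearlyGor {e : ℕ} (g : Fin e → ℕ) : Prop :=
  ∀ i, ∃ p ∈ PF (sg g), ∀ q ∈ PF (sg g), (g i : ℤ) + p - q ∈ sg g

theorem result (k : Type) [Field k] (e : ℕ) (he : 8 ≤ e) (B : ℕ) :
    ∃ g : Fin e → ℕ, StrictMono g ∧
      (∀ j, g j ∉ AddSubmonoid.closure (g '' {l | l ≠ j})) ∧
      ((AddSubmonoid.closure (Set.range g) : Set ℕ)ᶜ).Finite ∧
      AlmostSym (sg g) ∧ NearlyGor g ∧
      ∃ h : MvPowerSeries.HasSubst (fun i : Fin e => (PowerSeries.X : PowerSeries k) ^ g i),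
        (B : Cardinal) < (RingHom.ker (MvPowerSeries.substAlgHom (R := k) h)).spanRank := by
  obtain ⟨a, hm, ha⟩ := Pool.Agent.Bres.goodM e he B
  obtain ⟨F, hF, hF1, hF2⟩ := ha.big
  have hs : ∀ z, z ∈ sg a ↔ Pool.Agent.Bres.Mem a z := Pool.Agent.Bres.mem_image a
  have hsym : ∀ x ∉ sg a, F - x ∈ sg a := by
    intro x hx
    rw [hs] at hx ⊢
    by_contra h
    exact hx ((hF x).2 h)
  refine ⟨a, hm, ha.notmem, ha.cofin, ⟨F, ⟨fun h => hF1 ((hs F).1 h), fun z hz => ?_⟩,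
    fun x hx => Or.inl (hsym x hx)⟩, fun i => ⟨F, ⟨fun h => hF1 ((hs F).1 h), ?_⟩, ?_⟩,
    Pool.Agent.Bres.hasSubst a ha.pos, ?_⟩
  · by_contra h
    exact hz ((hs z).2 (hF2 z (by omega)))
  · rintro s ⟨h1, h2⟩
    have := ((hs s).1 h1).nonneg
    have h3 : s ≠ 0 := h2
    exact (hs _).2 (hF2 _ (by omega))
  · rintro q ⟨h1, h2⟩
    have : q = F := by
      by_contra h
      have := h2 (F - q) ⟨hsym q h1, fun h' => h (by have : F - q = 0 := h'; omega)⟩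
      rw [add_sub_cancel] at this
      exact hF1 ((hs F).1 this)
    rw [this, add_sub_cancel_right, hs]
    exact Pool.Agent.Bres.Mem.gen a i
  · obtain ⟨Z, hZ, hZ'⟩ := ha.disc
    refine lt_of_lt_of_le (by exact_mod_cast hZ)
      (Pool.Agent.Bres.card_le_ps a ha.pos Z (fun z hz => (hZ' z hz).disc) _ fun f => ?_)
    rw [RingHom.mem_ker, MvPowerSeries.substAlgHom_apply]

end Pool.Agent.Results.MP_36a309_al.No
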